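import Pool.Agent.Results.MP_5cc51b_al.BurilloAll

/-!
# Length functions on diagram groups and the number of cells
-/

set_option autoImplicit false

namespace Pool.Agent.Y72.Bur

open Pool.Agent.H599R3 Pool.Agent.Results.MP_5cc51b_al.BurilloAll

variable {A : Type} {R : Set (List A × List A)} {w : List A}

/-- on a finitely generated subgroup of a diagram group every length function of the diagram group
is bounded by a multiple of the diagram length -/
theorem lengths (hR : ∀ r ∈ R, r.1 ≠ [] ∧ r.2 ≠ []) {S : Set (D R w)} (hfin : S.Finite)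
    {L : D R w → ℕ} (L1 : L 1 = 0) (Lm : ∀ g h, L (g * h) ≤ L g + L h)
    (Li : ∀ g, L g⁻¹ = L g) :
    ∃ C : ℕ, ∀ g ∈ Subgroup.closure S, L g ≤ C * numCells g := by
  -- types of cells
  choose Z Z1 Z2 Z3 Z4 Z5 using fun g : D R w => exists_min hR g
  set Th0 : Set (St A) := ⋃ s ∈ S, {t | t ∈ (Z s).map (typ R)} with hTh0
  have f0 : Th0.Finite := hfin.biUnion (fun s _ => List.finite_toSet _)
  set Th : Set (St A) := Th0 ∪ bar '' Th0 with hTh
  have f1 : Th.Finite := f0.union (f0.image _)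
  have hbar : ∀ t : St A, typ R t ∈ Th → typ R (bar t) ∈ Th := by
    intro t ht
    have e : typ R (bar t) = bar (typ R t) := rfl
    rw [e]
    rcases ht with h | ⟨t', h, he⟩
    · exact Or.inr ⟨_, h, rfl⟩
    · left
      rw [← he, bar_bar]
      exact h
  have hall : ∀ g ∈ Subgroup.closure S, ∃ l : List (St A), Walk R w w l ∧ cls R w l = g ∧
      ∀ t ∈ l, typ R t ∈ Th := by
    intro g hg
    induction hg using Subgroup.closure_induction with
    | mem s hs =>
      refine ⟨Z s, Z1 s, Z2 s, fun t ht => Or.inl ?_⟩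
      simp only [hTh0, Set.mem_iUnion]
      exact ⟨s, hs, List.mem_map_of_mem ht⟩
    | one => exact ⟨[], rfl, cls_nil, by simp⟩
    | mul x y _ _ hx hy =>
      obtain ⟨l, l1, l2, l3⟩ := hx
      obtain ⟨m, m1, m2, m3⟩ := hy
      refine ⟨l ++ m, l1.append m1, by rw [← cls_mul l1 m1, l2, m2], ?_⟩
      intro t ht
      rcases List.mem_append.1 ht with h | h
      · exact l3 t h
      · exact m3 t h
    | inv x _ hx =>
      obtain ⟨l, l1, l2, l3⟩ := hx
      refine ⟨rv l, l1.rv, by rw [cls_rv l1, l2], ?_⟩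
      intro t ht
      rw [rv, List.mem_reverse, List.mem_map] at ht
      obtain ⟨t', ht', rfl⟩ := ht
      exact hbar _ (l3 t' ht')
  have hZT : ∀ g ∈ Subgroup.closure S, ∀ t ∈ Z g, typ R t ∈ Th := by
    intro g hg t ht
    obtain ⟨l, l1, l2, l3⟩ := hall g hg
    have := (Z5 g l l1 l2).2 t ht
    obtain ⟨t', ht', he⟩ := List.mem_map.1 this
    rw [← he]
    exact l3 t' ht'
  -- types of letters
  set Q : Set (List A × A × List A) := outTypes R Th ∪ wordTypes R w with hQdef
  have f2 : Q.Finite := (finite_outTypes f1).union (finite_wordTypes w)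
  obtain ⟨K, hK⟩ := (f1.image (fun t : St A => (out t.2.1 t.2.2.2).length)).bddAbove
  obtain ⟨B1, hB1⟩ := (f2.image (fun q => L (kap R w q.1 q.2.1 q.2.2))).bddAbove
  obtain ⟨B2, hB2⟩ := (f1.image (fun t => L (chi R w t))).bddAbove
  set B := max B1 B2 with hB
  have hBQ : ∀ q ∈ Q, L (kap R w q.1 q.2.1 q.2.2) ≤ B := fun q hq =>
    (hB1 ⟨q, hq, rfl⟩).trans (le_max_left _ _)
  have hBT : ∀ t ∈ Th, L (chi R w t) ≤ B := fun t ht =>
    (hB2 ⟨t, ht, rfl⟩).trans (le_max_right _ _)
  have hKT : ∀ t ∈ Th, (out t.2.1 t.2.2.2).length ≤ K := fun t ht => hK ⟨t, ht, rfl⟩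
  -- the main estimate
  set C0 : ℕ := 2 * L (T R w [] w) + B * (2 * K + 1 + 2 * w.length) with hC0
  refine ⟨C0, ?_⟩
  intro g hg
  have h1 := cursor_bound (L := L) L1 Lm
    Li hBQ (Th := Th) Set.subset_union_left hBT hKT hR (Z g) [] w (Z1 g)
    (Eqv.refl w) (fun m₁ a m₂ h => Or.inr ⟨m₁, a, m₂, h, rfl⟩) (hZT g hg) (Z4 g) (by
      intro t ht
      have hmem : t.2.1 ∈ R := (Z1 g).mem t (List.mem_of_mem_head? ht)
      have := hR _ hmem
      have h2 : 0 < (inn t.2.1 t.2.2.2).length := by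
        rw [List.length_pos_iff]
        unfold inn
        split_ifs
        · exact this.1
        · exact this.2
      simp only [List.length_nil]
      omega)
  rw [← cls_val (Z1 g), Z2 g, Z3 g] at h1
  rcases Nat.eq_zero_or_pos (numCells g) with h0 | h0
  · have h2 : Z g = [] := List.eq_nil_of_length_eq_zero (by rw [Z3 g, h0])
    have h3 := Z2 g
    rw [h2, cls_nil] at h3
    rw [← h3, L1]
    exact Nat.zero_le _
  · have e : g = (T R w [] w)⁻¹ * ((T R w [] w * g * (T R w [] w)⁻¹) * T R w [] w) := by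
      group
    have h3 := Lm (T R w [] w)⁻¹ ((T R w [] w * g * (T R w [] w)⁻¹) * T R w [] w)
    have h4 := Lm (T R w [] w * g * (T R w [] w)⁻¹) (T R w [] w)
    rw [← e, Li] at h3
    obtain ⟨n, hn⟩ : ∃ n, numCells g = n + 1 := ⟨numCells g - 1, by omega⟩
    rw [hn] at h1 ⊢
    simp only [List.length_nil, add_zero] at h1
    have h5 : B * ((2 * K + 1) * (n + 1) + 2 * w.length) ≤
        B * ((2 * K + 1 + 2 * w.length) * (n + 1)) := by
      apply Nat.mul_le_mul_left
      have e5 : (2 * K + 1 + 2 * w.length) * (n + 1) =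
          (2 * K + 1) * (n + 1) + 2 * w.length * (n + 1) := by ring
      rw [e5]
      exact Nat.add_le_add_left (Nat.le_mul_of_pos_right _ (by omega)) _
    have h6 : 2 * L (T R w [] w) ≤ 2 * L (T R w [] w) * (n + 1) :=
      Nat.le_mul_of_pos_right _ (by omega)
    have h7 : C0 * (n + 1) = 2 * L (T R w [] w) * (n + 1) +
        B * ((2 * K + 1 + 2 * w.length) * (n + 1)) := by
      rw [hC0]; ring
    omega

/-- the number of cells is bounded by a multiple of the word length -/
theorem upper (hR : ∀ r ∈ R, r.1 ≠ [] ∧ r.2 ≠ []) {H : Type} [Group H] (i : H →* D R w)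
    {T : Set H} (hT : T.Finite) (hT' : Subgroup.closure T = ⊤) :
    ∃ M : ℕ, ∀ h : H, numCells (i h) ≤ M * wordLength T h := by
  obtain ⟨M, hM⟩ := (hT.image (fun s : H => numCells (i s))).bddAbove
  refine ⟨M, fun h => ?_⟩
  obtain ⟨l, l1, l2, l3⟩ := exists_word hT' h
  rw [← l3, ← l2, map_list_prod]
  have h1 := numCells_prod hR (M := M) (S := i '' T) (by
    rintro _ ⟨s, hs, rfl⟩
    exact hM ⟨s, hs, rfl⟩) (l.map i) (by
    intro x hx
    obtain ⟨y, hy, rfl⟩ := List.mem_map.1 hx
    rcases l1 y hy with h | h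
    · exact Or.inl ⟨y, h, rfl⟩
    · exact Or.inr ⟨y⁻¹, h, map_inv i y⟩)
  rwa [List.length_map] at h1

end Pool.Agent.Y72.Bur
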